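import Pool.Agent.W528.HI.Main
import Pool.Agent.W528.HC.MU
import Pool.Agent.W924.HC.PR
import Pool.Agent.W340.HD.IN
import Pool.Agent.W108.HD.ONE
import Pool.Agent.W940.HD.GE
import Pool.Agent.W551.HD.GN
import Pool.Agent.W816.HI.AT
import Pool.Agent.W15.HI.PT

set_option autoImplicit false

namespace Pool.Agent.Results.MP_1bad5e_ag.DoubleKummerCovers

open Polynomial Pool.Agent.W528.HC Pool.Agent.W528.HD Pool.Agent.W528.HI

/-- **The Tate conjecture for the simply connected surfaces `y ^ n = ∏ (x ^ e - f_i(u ^ r)) ^ a_i`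
over finitely generated fields.**

Let `n`, `e`, `r` be pairwise coprime, with all prime factors at least `P`, `Q`, `R` respectively,
let `k` be a finitely generated field of characteristic `0` (or of characteristic `1` modulo
`n e r`), `f_1, ..., f_m` any polynomials of degree at most `D` over `k`, not all of the
differences constant, `a_i > 0`, and `D ((a_1 + ... + a_m) / P + 1 / Q) + 1 / R < 1`. Let `X` be a
smooth projective model of the surface `y ^ n = ∏ (x ^ e - f_i(u ^ r)) ^ a_i`. It is fibred over the
`u`-line with a section, and the fibre at infinity is a tree of rational curves, so `X` is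
geometrically simply connected. Outside of algebraic classes the second cohomology is a
representation `V` of the Galois group `G` of `k`, the sum of the parts `W (j, s₁, s₂)` of the
characters of the roots of unity acting on `(y, x, u)`. Let `φ` be a Frobenius element at a place
of a model of `k` with residue field `κ` of characteristic `c = 1` modulo `n e r`, where
everything has good reduction. By the Grothendieck-Lefschetz formula the traces of the powers of `φ`
on the parts are the sums `triSum` (`TriTrace`).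

Theorem: (1) the traces of the powers of `φ` on `V` are the numbers of points of the affine surface
minus `|L| ^ 2`; (2) if `ε` is a character of `G` with `ε φ = |κ|` (the inverse of the cyclotomic
character), then no nonzero vector of `V` is multiplied by `ε` under a subgroup of finite index:
all Tate classes are algebraic. -/
theorem result (n e r c D P Q R : ℕ) (hn : 2 ≤ n) (he : 0 < e) (hr : 0 < r) (hen : e.Coprime n)
    (hrn : r.Coprime n) (her : e.Coprime r) (hP1 : 1 ≤ P) (hQ1 : 1 ≤ Q) (hR1 : 1 ≤ R)
    (hP : ∀ l : ℕ, l.Prime → l ∣ n → P ≤ l) (hQ : ∀ l : ℕ, l.Prime → l ∣ e → Q ≤ l)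
    (hR : ∀ l : ℕ, l.Prime → l ∣ r → R ≤ l)
    [Fact c.Prime] (hc : n * e * r ∣ c - 1)
    (κ : Type) [Field κ] [Fintype κ] [CharP κ c] (z : κ) (hz : IsPrimitiveRoot z (n * e * r))
    (E : Type) [Field E] [CharZero E] [IsAlgClosed E] (μ : E)
    (hμ : IsPrimitiveRoot μ (n * e * r)) (m : ℕ) (f : Fin m → κ[X]) (hD : 1 ≤ D)
    (hf : ∀ i, (f i).natDegree ≤ D) (a : Fin m → ℕ) (ha : ∀ i, 0 < a i)
    (ha2 : D * (Q * R * ∑ i, a i + P * R) + P * Q < P * Q * R)
    (G : Type) [Group G] (V : Type) [AddCommGroup V] [Module E V] [FiniteDimensional E V]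
    (ρ : Representation E G V) (W : Fin (n - 1) × Fin e × Fin r → Submodule E V)
    (hW : DirectSum.IsInternal W) (hstab : ∀ χ g, ∀ v ∈ W χ, ρ g v ∈ W χ)
    (φ : G) (hφ : ∀ χ, TriTrace κ n e r f a z μ (χ.1 + 1) χ.2.1 χ.2.2
      ((ρ φ).restrict (hstab χ φ))) :
    (∀ (L : Type) [Field L] [Fintype L] [Algebra κ L],
      LinearMap.trace E V ((ρ φ) ^ Module.finrank κ L)
        = (triPoints L n e r (fun i => (f i).map (algebraMap κ L)) a : E)
          - (Fintype.card L : E) ^ 2) ∧
    ∀ (ε : G →* E), ε φ = Fintype.card κ → ∀ (H : Subgroup G), H.FiniteIndex → ∀ v : V,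
      (∀ g ∈ H, ρ g v = ε g • v) → v = 0 :=
  fin_tri Pool.Agent.W551.HD.GN.main
    (Pool.Agent.W108.HD.ONE.main Pool.Agent.W551.HD.GN.main Pool.Agent.W340.HD.IN.main
      Pool.Agent.W135.HB.SA.main)
    Pool.Agent.W940.HD.GE.main Pool.Agent.W816.HI.AT.main
    (Pool.Agent.W15.HI.PT.main Pool.Agent.W924.HC.PR.main mu_main)
    hn he hr hen hrn her hP1 hQ1 hR1 hP hQ hR hc κ hz hμ hD f hf a ha ha2 ρ W hW hstab φ hφ

end Pool.Agent.Results.MP_1bad5e_ag.DoubleKummerCovers
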